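import Mathlib

set_option autoImplicit false

namespace Pool.Agent.Results.MP_881be3_lc.NotHomogeneous

open FirstOrder Filter

/-- function symbols of the language of groups -/
inductive GrpFun : ℕ → Type
  | one : GrpFun 0
  | inv : GrpFun 1
  | mul : GrpFun 2

/-- the first-order language of groups -/
def L : Language := ⟨GrpFun, fun _ => Empty⟩

instance str (G : Type) [Group G] : L.Structure G where
  funMap
    | .one, _ => 1
    | .inv, v => (v 0)⁻¹
    | .mul, v => v 0 * v 1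
  RelMap r := r.elim

/-- tuples with the same type lie in the same `Aut(G)`-orbit -/
def Homogeneous (G : Type) [Group G] : Prop :=
  ∀ k, 1 ≤ k → ∀ u v : Fin k → G, (∀ φ : L.Formula (Fin k), φ.Realize u ↔ φ.Realize v) →
    ∃ σ : G ≃* G, ∀ i, σ (u i) = v i

/-- an integer matrix acting on column vectors -/
def act {n : ℕ} {M : Type} [AddCommGroup M] (A : GL (Fin n) ℤ) (s : Fin n → M) : Fin n → M :=
  fun i => ∑ j, A.1 i j • s j

/-- the semidirect product `M ^ n ⋊ P` for `P ≤ GL_n(ℤ)` -/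
@[ext] structure Cryst {n : ℕ} (M : Type) (P : Subgroup (GL (Fin n) ℤ)) where
  t : Fin n → M
  g : P

/-- rational irreducibility of the point group -/
def Irred {n : ℕ} (P : Subgroup (GL (Fin n) ℤ)) : Prop :=
  ∀ W : Submodule ℚ (Fin n → ℚ), (∀ A ∈ P, ∀ x ∈ W, act A x ∈ W) → W = ⊥ ∨ W = ⊤

section
variable {n : ℕ} {M N : Type} [AddCommGroup M] [AddCommGroup N] {P : Subgroup (GL (Fin n) ℤ)}

theorem act_one (s : Fin n → M) : act 1 s = s := by
  funext i; simp [act, Matrix.one_apply]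

theorem act_mul (A B : GL (Fin n) ℤ) (s : Fin n → M) : act (A * B) s = act A (act B s) := by
  funext i
  simp only [act, Units.val_mul, Matrix.mul_apply, Finset.sum_smul, Finset.smul_sum, mul_smul]
  exact Finset.sum_comm

theorem act_add (A : GL (Fin n) ℤ) (s r : Fin n → M) : act A (s + r) = act A s + act A r := by
  funext i; simp [act, Finset.sum_add_distrib]

theorem act_zero (A : GL (Fin n) ℤ) : act A (0 : Fin n → M) = 0 := by
  funext i; simp [act]

theorem act_neg (A : GL (Fin n) ℤ) (s : Fin n → M) : act A (-s) = -act A s := by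
  funext i; simp [act]

instance grp : Group (Cryst M P) where
  mul x y := ⟨x.t + act x.g.1 y.t, x.g * y.g⟩
  one := ⟨0, 1⟩
  inv x := ⟨-act x.g⁻¹.1 x.t, x.g⁻¹⟩
  mul_assoc x y z := Cryst.ext (by
    change x.t + act _ y.t + act (x.g.1 * y.g.1) z.t = x.t + act _ (y.t + act _ z.t)
    rw [act_mul, act_add, add_assoc]) (mul_assoc x.g y.g z.g)
  one_mul x := Cryst.ext (by change 0 + act 1 x.t = _; rw [act_one, zero_add]) (one_mul x.g)
  mul_one x := Cryst.ext (by change x.t + act _ 0 = _; rw [act_zero, add_zero]) (mul_one x.g)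
  inv_mul_cancel x := Cryst.ext (neg_add_cancel _) (inv_mul_cancel x.g)

theorem mul_t (x y : Cryst M P) : (x * y).t = x.t + act x.g.1 y.t := rfl
theorem mul_g (x y : Cryst M P) : (x * y).g = x.g * y.g := rfl

theorem map_act (ψ : M →+ N) (A : GL (Fin n) ℤ) (s : Fin n → M) (i : Fin n) :
    ψ (act A s i) = act A (fun j => ψ (s j)) i := by simp [act]

def cmap (θ : M ≃+ M) : Cryst M P ≃* Cryst M P where
  toFun x := ⟨fun i => θ (x.t i), x.g⟩
  invFun x := ⟨fun i => θ.symm (x.t i), x.g⟩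
  left_inv x := by simp
  right_inv x := by simp
  map_mul' x y := Cryst.ext (funext fun i => by
    change θ (x.t i + act _ y.t i) = θ (x.t i) + _
    rw [map_add]; exact congrArg _ (map_act θ.toAddMonoidHom _ _ i)) rfl

def gHom : Cryst M P →* P := ⟨⟨Cryst.g, rfl⟩, fun _ _ => rfl⟩

def tr (t : Fin n → M) : Cryst M P := ⟨t, 1⟩

theorem tr_mul (s t : Fin n → M) : (tr s * tr t : Cryst M P) = tr (s + t) :=
  Cryst.ext (by rw [mul_t]; exact congrArg _ (act_one t)) (mul_one _)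

theorem tr_pow (s : Fin n → M) (m : ℕ) : (tr s ^ m : Cryst M P) = tr (m • s) := by
  induction m with
  | zero => rw [zero_smul]; rfl
  | succ m ih => rw [pow_succ, ih, tr_mul, succ_nsmul]

theorem aut_tr [Finite P] (σ : Cryst ℤ P ≃* Cryst ℤ P) (t : Fin n → ℤ) : (σ (tr t)).g = 1 := by
  have h : ∀ s, act (σ (tr t)).g.1 (Nat.card P • s) = Nat.card P • (s : Fin n → ℤ) := by
    intro s
    have h1 : σ.symm (tr s) ^ Nat.card P = tr (σ.symm (tr s) ^ Nat.card P).t :=
      Cryst.ext rfl ((map_pow gHom _ _).trans (pow_card_eq_one'))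
    have h2 : tr t * σ.symm (tr s) ^ Nat.card P = σ.symm (tr s) ^ Nat.card P * tr t := by
      rw [h1, tr_mul, tr_mul, add_comm]
    have h3 := congrArg (fun x => (σ x).t) h2
    simp only [map_mul, map_pow, MulEquiv.apply_symm_apply, tr_pow, mul_t] at h3
    change _ + act _ (Nat.card P • s) = Nat.card P • s + act 1 _ at h3
    rw [act_one, add_comm] at h3
    exact add_right_cancel h3
  ext i j
  have := congrFun (h (Pi.single j 1)) i
  simp [act, Pi.single_apply, Nat.card_pos.ne'] at this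
  simp only [OneMemClass.coe_one, Units.val_one, Matrix.one_apply]
  split_ifs at this ⊢ <;> simpa [Nat.card_pos.ne'] using this

end

theorem los {G H : Type} [Group G] [Group H] (U : Ultrafilter ℕ) (ev : (ℕ → G) →* H)
    (hs : Function.Surjective ev) (he : ∀ x y, ev x = ev y ↔ ∀ᶠ n in U, x n = y n) {α : Type}
    {k : ℕ} (φ : L.BoundedFormula α k) (x : α → ℕ → G) (v : Fin k → ℕ → G) :
    (φ.Realize (fun i => ev (x i)) fun i => ev (v i)) ↔
      ∀ᶠ n in U, φ.Realize (fun i => x i n) fun i => v i n := by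
  have tm : ∀ {β : Type} (t : L.Term β) (y : β → ℕ → G),
      t.realize (fun i => ev (y i)) = ev fun n => t.realize fun i => y i n := by
    intro β t y
    induction t with
    | var i => rfl
    | func f ts ih =>
      simp only [Language.Term.realize, ih]
      cases f
      exacts [(map_one ev).symm, (map_inv ev _).symm, (map_mul ev _ _).symm]
  induction φ with
  | falsum => simp only [Language.BoundedFormula.Realize, eventually_const]
  | equal t1 t2 =>
    have h1 : ∀ a, (Sum.elim (fun i => x i a) fun i => v i a) = fun i => Sum.elim x v i a :=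
      fun a => funext fun i => Sum.casesOn i (fun i => rfl) fun i => rfl
    have h2 : (Sum.elim (fun i => ev (x i)) fun i => ev (v i)) = fun i => ev (Sum.elim x v i) :=
      funext fun i => Sum.casesOn i (fun i => rfl) fun i => rfl
    simp only [Language.BoundedFormula.Realize, h1, h2, tm, he]
  | rel r => exact r.elim
  | imp _ _ ih ih' =>
    simp only [Language.BoundedFormula.Realize, ih v, ih' v]
    rw [Ultrafilter.eventually_imp]
  | @all k φ ih =>
    simp only [Language.BoundedFormula.Realize]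
    have h1 : ∀ m : ℕ → G, (Fin.snoc (fun i => ev (v i)) (ev m) : Fin (k + 1) → H) =
        fun i => ev ((Fin.snoc v m : Fin (k + 1) → ℕ → G) i) :=
      fun m => funext (Fin.lastCases (by simp) fun i => by simp)
    have h2 : ∀ (m : ℕ → G) n, (fun i => (Fin.snoc v m : Fin (k + 1) → ℕ → G) i n) =
        (Fin.snoc (fun i => v i n) (m n) : Fin (k + 1) → G) :=
      fun m n => funext (Fin.lastCases (by simp) fun i => by simp)
    rw [hs.forall]
    simp only [h1, ih, h2]
    refine ⟨fun h => ?_, fun h m => h.mono fun n hn => hn _⟩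
    contrapose! h
    exact h.choice

noncomputable abbrev U := hyperfilter ℕ
abbrev Z := Germ (U : Filter ℕ) ℤ

theorem theta : ∃ (θ : Z ≃+ Z) (y : Z), θ 1 = 2 + 5 * y := by
  let D : AddSubgroup Z :=
    { carrier := {x | ∀ m : ℤ, m ≠ 0 → (m : Z) ∣ x}
      zero_mem' := fun _ _ => dvd_zero _
      add_mem' := fun h1 h2 m hm => dvd_add (h1 m hm) (h2 m hm)
      neg_mem' := fun h m hm => (h m hm).neg_right }
  have tf : ∀ m : ℤ, m ≠ 0 → ∀ a b : Z, m * a = m * b → a = b := by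
    intro m hm a b
    induction a using Germ.inductionOn with | h a => ?_
    induction b using Germ.inductionOn with | h b => ?_
    intro h
    exact Germ.coe_eq.mpr ((Germ.coe_eq.mp h).mono fun n hn => mul_left_cancel₀ hm hn)
  letI : DivisibleBy D ℤ := divisibleByOfSMulRightSurj _ _ fun {m} hm x => by
    obtain ⟨y, hy⟩ := x.2 m hm
    refine ⟨⟨y, fun r hr => ?_⟩, Subtype.ext (by simp [hy])⟩
    obtain ⟨z, hz⟩ := x.2 (m * r) (mul_ne_zero hm hr)
    exact ⟨z, tf m hm _ _ (by rw [← hy, hz]; push_cast; ring)⟩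
  obtain ⟨π0, hπ⟩ := (Module.Baer.of_divisible D).extension_property_addMonoidHom D.subtype
    Subtype.val_injective (AddMonoidHom.id D)
  let π : Z →+ Z := D.subtype.comp π0
  have p1 : ∀ x, π x ∈ D := fun x => (π0 x).2
  have p2 : ∀ x ∈ D, π x = x := fun x hx => by
    have := DFunLike.congr_fun hπ (⟨x, hx⟩ : D)
    exact congrArg Subtype.val this
  have id : ∀ a, ∀ x ∈ D, a * x ∈ D := fun a x hx m hm => (hx m hm).mul_left a
  choose k hk1 hk2 hk3 using fun n =>
    Nat.forall_exists_prime_gt_and_zmodEq n (q := 5) (a := 2) (by norm_num) ⟨-2, 1, by norm_num⟩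
  have : ∀ n, ∃ l : ℤ, (n.factorial : ℤ) ∣ k n * l - 1 := fun n => by
    obtain ⟨a, b, h⟩ := Nat.isCoprime_iff_coprime.mpr
      ((Nat.Prime.coprime_iff_not_dvd (hk2 n)).mpr fun h =>
        (hk1 n).not_ge ((hk2 n).dvd_factorial.mp h))
    exact ⟨a, -b, by linear_combination h⟩
  choose l hl using this
  obtain ⟨K, hK⟩ : ∃ K : Z, K = (fun n => (k n : ℤ) : ℕ → ℤ) := ⟨_, rfl⟩
  have hD : K * (l : Z) - 1 ∈ D := fun m hm => by
    refine ⟨(fun n => (k n * l n - 1) / m : ℕ → ℤ), hK ▸ Germ.coe_eq.mpr ?_⟩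
    have : ∀ᶠ n in (U : Filter ℕ), m.natAbs ≤ n :=
      (hyperfilter_le_cofinite.trans Nat.cofinite_eq_atTop.le) (eventually_ge_atTop _)
    refine this.mono fun n hn => (Int.mul_ediv_cancel' (Dvd.dvd.trans ?_ (hl n))).symm
    exact Int.natAbs_dvd.mp (Int.natCast_dvd_natCast.mpr
      (Nat.dvd_factorial (Int.natAbs_pos.mpr hm) hn))
  let F : Z → Z →+ Z := fun a => AddMonoidHom.mulLeft a - π.comp (AddMonoidHom.mulLeft a) + π
  have hF : ∀ a x, F a x = a * x - π (a * x) + π x := fun _ _ => rfl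
  have inv : ∀ a b, a * b - 1 ∈ D → ∀ x, F a (F b x) = x := by
    intro a b h x
    have h1 : π (F b x) = π x := by rw [hF, map_add, map_sub, p2 _ (p1 _), p2 _ (p1 x)]; ring
    have h2 : a * F b x - x ∈ D := by
      have := D.add_mem (id x _ h) (id a _ (D.sub_mem (p1 x) (p1 (b * x))))
      convert this using 1
      rw [hF]; ring
    have h3 := p2 _ h2
    rw [map_sub] at h3
    rw [hF a, h1]
    linear_combination -h3
  obtain ⟨y1, h1⟩ := p1 K 5 (by norm_num)
  obtain ⟨y2, h2⟩ := p1 1 5 (by norm_num)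
  have h3 : K = 2 + 5 * ((fun n => ((k n : ℤ) - 2) / 5 : ℕ → ℤ) : Z) := by
    refine hK ▸ Germ.coe_eq.mpr (Eventually.of_forall fun n => ?_)
    have := (hk3 n).dvd
    change (k n : ℤ) = 2 + 5 * (((k n : ℤ) - 2) / 5)
    omega
  refine ⟨{ F K with
    invFun := F l
    left_inv := inv _ _ (by rwa [mul_comm])
    right_inv := inv _ _ hD }, (fun n => ((k n : ℤ) - 2) / 5 : ℕ → ℤ) - y1 + y2, ?_⟩
  change F K 1 = _
  rw [hF, mul_one, h1, h2]
  push_cast
  linear_combination h3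

theorem evx {n : ℕ} (P : Subgroup (GL (Fin n) ℤ)) [Finite P] :
    ∃ ev : (ℕ → Cryst ℤ P) →* Cryst Z P, Function.Surjective ev ∧
      (∀ x y, ev x = ev y ↔ ∀ᶠ n in U, x n = y n) ∧
      ∀ x : Cryst ℤ P, ev (fun _ => x) = ⟨fun i => (x.t i : Z), x.g⟩ := by
  have : ∀ x : ℕ → P, ∃ a, ∀ᶠ n in U, x n = a := fun x => by
    obtain ⟨a, ha⟩ := (U.map x).eq_pure_of_finite
    refine ⟨a, ?_⟩
    have : {a} ∈ U.map x := by rw [ha]; rfl
    exact this
  choose lim hl using this
  have un : ∀ x a, (∀ᶠ n in U, x n = a) → lim x = a := fun x a h =>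
    let ⟨_, h1, h2⟩ := ((hl x).and h).exists
    h1.symm.trans h2
  refine ⟨MonoidHom.mk' (fun x => ⟨fun i => ((fun n => (x n).t i : ℕ → ℤ) : Z),
    lim fun n => (x n).g⟩) fun x y => ?_, fun z => ?_, fun x y => ⟨fun h => ?_, fun h => ?_⟩,
    fun x => Cryst.ext rfl (un _ _ (Eventually.of_forall fun _ => rfl))⟩
  · refine Cryst.ext (funext fun i => ?_) (un _ _ (((hl fun n => (x n).g).and
      (hl fun n => (y n).g)).mono fun n h => by rw [mul_g, ← h.1, ← h.2]; rfl))
    have := map_act (Germ.coeAddHom (U : Filter ℕ)) (lim fun n => (x n).g).1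
      (fun j n => (y n).t j) i
    refine Eq.trans ?_ (congrArg (_ + ·) this)
    refine Germ.coe_eq.mpr ((hl fun n => (x n).g).mono fun n h => ?_)
    have := map_act (Pi.evalAddMonoidHom (fun _ : ℕ => ℤ) n) (lim fun n => (x n).g).1
      (fun j n => (y n).t j) i
    refine Eq.trans ?_ (congrArg (_ + ·) this).symm
    rw [← h]; rfl
  · choose s hs using fun i => Quotient.exists_rep (z.t i)
    exact ⟨fun n => ⟨fun i => s i n, z.g⟩, Cryst.ext (funext hs)
      (un _ _ (Eventually.of_forall fun _ => rfl))⟩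
  · have h1 : ∀ i, ∀ᶠ n in U, (x n).t i = (y n).t i := fun i =>
      Germ.coe_eq.mp (congrFun (congrArg Cryst.t h) i)
    have h2 : (lim fun n => (x n).g) = lim fun n => (y n).g := congrArg Cryst.g h
    filter_upwards [eventually_all.mpr h1, hl fun n => (x n).g, hl fun n => (y n).g] with n a b c
    exact Cryst.ext (funext a) (b.trans (h2.trans c.symm))
  · refine Cryst.ext (funext fun i => Germ.coe_eq.mpr (h.mono fun n hn => by simp only [hn]))
      (un _ _ ?_)
    filter_upwards [h, hl fun n => (y n).g] with n a b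
    rw [a]; exact b

def b (x y : Fin 4 → ℤ) : ℤ := 5 * ∑ i, x i * y i - (∑ i, x i) * ∑ i, y i

def P0 : Subgroup (GL (Fin 4) ℤ) where
  carrier := {A | ∀ x y, b (act A x) (act A y) = b x y}
  one_mem' x y := by rw [act_one, act_one]
  mul_mem' h1 h2 x y := by rw [act_mul, act_mul, h1, h2]
  inv_mem' {A} h x y := by rw [← h, ← act_mul, ← act_mul, mul_inv_cancel, act_one, act_one]

theorem b_eq (x y : Fin 4 → ℤ) : b x y = 5 * (x 0 * y 0 + x 1 * y 1 + x 2 * y 2 + x 3 * y 3) -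
    (x 0 + x 1 + x 2 + x 3) * (y 0 + y 1 + y 2 + y 3) := by simp [b, Fin.sum_univ_four]

theorem sq_le (x : Fin 4 → ℤ) (i : Fin 4) : x i ^ 2 ≤ b x x := by
  rw [b_eq]
  have := sq_nonneg (x 0 - x 1); have := sq_nonneg (x 0 - x 2); have := sq_nonneg (x 0 - x 3)
  have := sq_nonneg (x 1 - x 2); have := sq_nonneg (x 1 - x 3); have := sq_nonneg (x 2 - x 3)
  have := sq_nonneg (x 0); have := sq_nonneg (x 1); have := sq_nonneg (x 2)
  have := sq_nonneg (x 3)
  fin_cases i <;> simp <;> nlinarith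

instance : Finite P0 := by
  refine Finite.of_injective (β := Fin 4 → Fin 4 → Set.Icc (-2 : ℤ) 2)
    (fun A i j => ⟨A.1.1 i j, ?_⟩) fun A B h => ?_
  · have h1 := sq_le (act A.1 (Pi.single j 1)) i
    rw [A.2, show b (Pi.single j 1) (Pi.single j 1) = 4 by fin_cases j <;> decide] at h1
    simp [act, Pi.single_apply] at h1
    constructor <;> nlinarith
  · ext i j
    exact congrArg Subtype.val (congrFun (congrFun h i) j)

def mk (A B : Matrix (Fin 4) (Fin 4) ℤ) (h1 : A * B = 1) (h2 : B * A = 1)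
    (h : ∀ x y, b (fun i => ∑ j, A i j • x j) (fun i => ∑ j, A i j • y j) = b x y) : P0 :=
  ⟨⟨A, B, h1, h2⟩, h⟩

def f : P0 := mk !![0, 0, 0, -1; 1, 0, 0, -1; 0, 1, 0, -1; 0, 0, 1, -1]
  !![-1, 1, 0, 0; -1, 0, 1, 0; -1, 0, 0, 1; -1, 0, 0, 0] (by decide) (by decide)
  fun x y => by simp [b_eq, Fin.sum_univ_four]; ring

def sw : P0 := mk !![1, 0, 0, 0; 0, 0, 1, 0; 0, 1, 0, 0; 0, 0, 0, 1]
  !![1, 0, 0, 0; 0, 0, 1, 0; 0, 1, 0, 0; 0, 0, 0, 1] (by decide) (by decide)
  fun x y => by simp [b_eq, Fin.sum_univ_four]; ring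

def ng : P0 := mk (-1) (-1) (by simp) (by simp)
  fun x y => by simp [b_eq, Matrix.one_apply]; ring

def tauM (k : Fin 4) : Matrix (Fin 4) (Fin 4) ℤ := .of fun i j =>
  (if i = j then 1 else 0) - if j = k then (if i = k then 2 else 1) else 0

def tau (k : Fin 4) : P0 := mk (tauM k) (tauM k) (by revert k; decide) (by revert k; decide)
  fun x y => by fin_cases k <;> simp [b_eq, Fin.sum_univ_four, tauM] <;> ring

theorem irr : Irred P0 := by
  intro W hW
  refine or_iff_not_imp_left.mpr fun h => ?_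
  obtain ⟨x, hx, h0⟩ := (Submodule.ne_bot_iff W).mp h
  let r : Fin 4 → Fin 4 → ℚ := fun k i => if i = k then 2 else 1
  have key : ∀ x ∈ W, ∀ k, x k ≠ 0 → r k ∈ W := by
    intro x hx k hk
    have h1 := W.smul_mem (x k)⁻¹ (W.sub_mem hx (hW _ (tau k).2 x hx))
    convert h1 using 1
    funext i
    simp [r, act, tau, mk, tauM, sub_mul, Finset.sum_sub_distrib]
    split_ifs <;> field_simp
  obtain ⟨k, hk⟩ := Function.ne_iff.mp h0
  have all : ∀ j, r j ∈ W := fun j => key _ (key x hx k hk) j (by simp only [r]; split_ifs <;> simp)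
  refine eq_top_iff.mpr fun y _ => ?_
  have := W.sum_mem fun j (_ : j ∈ Finset.univ) =>
    W.smul_mem (y j - (y 0 + y 1 + y 2 + y 3) / 5) (all j)
  convert this using 1
  funext i
  fin_cases i <;> simp [r, Fin.sum_univ_four] <;> ring

theorem act_f {M : Type} [AddCommGroup M] (x : Fin 4 → M) :
    act f.1 x = ![-x 3, x 0 - x 3, x 1 - x 3, x 2 - x 3] := by
  funext i
  fin_cases i <;> simp [act, f, mk, Fin.sum_univ_four, sub_eq_add_neg]

theorem noaut (σ : Cryst ℤ P0 ≃* Cryst ℤ P0) :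
    σ ⟨![1, 0, 0, 0], f⟩ ≠ ⟨![2, 0, 0, 0], f⟩ := by
  intro h
  let B : (Fin 4 → ℤ) →+ Fin 4 → ℤ := AddMonoidHom.mk' (fun t => (σ (tr t)).t) fun s t => by
    rw [← tr_mul, map_mul, mul_t, aut_tr]; exact congrArg _ (act_one _)
  have hB : ∀ t, σ (tr t) = tr (B t) := fun t => Cryst.ext rfl (aut_tr σ t)
  have cj : ∀ (g : P0) t, B (act g.1 t) = act (σ ⟨0, g⟩).g.1 (B t) := by
    intro g t
    have : (tr (act g.1 t) * ⟨0, g⟩ : Cryst ℤ P0) = ⟨0, g⟩ * tr t :=
      Cryst.ext (by simp [mul_t, tr, act_zero]) (by simp [mul_g, tr])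
    have := congrArg (fun x => (σ x).t) this
    simp only [map_mul, hB, mul_t] at this
    change B _ + act 1 _ = _ + act _ (B t) at this
    rw [act_one, add_comm] at this
    exact add_left_cancel this
  have su : ∀ t, ∃ x, B x = t := fun t => ⟨(σ.symm (tr t)).t, by
    have : σ.symm (tr t) = tr (σ.symm (tr t)).t := Cryst.ext rfl (aut_tr _ t)
    have h2 := hB (σ.symm (tr t)).t
    rw [← this, MulEquiv.apply_symm_apply] at h2
    exact (congrArg Cryst.t h2).symm⟩
  have e1 : (⟨![1, 0, 0, 0], f⟩ : Cryst ℤ P0) = tr ![1, 0, 0, 0] * ⟨0, f⟩ :=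
    Cryst.ext (by simp [mul_t, tr, act_zero]) (by simp [mul_g, tr])
  rw [e1, map_mul, hB] at h
  have hg : (σ ⟨0, f⟩).g = f := (one_mul _).symm.trans (congrArg Cryst.g h)
  have ht : B ![1, 0, 0, 0] + (σ ⟨0, f⟩).t = ![2, 0, 0, 0] := by
    rw [← act_one (σ ⟨0, f⟩).t]; exact congrArg Cryst.t h
  have an : ∀ x : Fin 4 → ℤ, act ng.1 x = -x := fun x => by
    funext i; simp [act, ng, mk, Matrix.one_apply]
  have hn : ∀ t, act (σ ⟨0, ng⟩).g.1 t = -t := fun t => by
    obtain ⟨x, rfl⟩ := su t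
    rw [← cj, an, map_neg]
  have cm : (⟨0, f⟩ * ⟨0, ng⟩ : Cryst ℤ P0) = ⟨0, ng⟩ * ⟨0, f⟩ :=
    Cryst.ext (by simp [mul_t, act_zero]) (by
      ext i j; simp [mul_g, ng, mk])
  have c2 := congrArg (fun x => (σ x).t) cm
  simp only [map_mul, mul_t, hn, hg, act_f] at c2
  generalize (σ ⟨0, f⟩).t = e at c2 ht
  generalize (σ ⟨0, ng⟩).t = d at c2
  have cf : ∀ t, B (act f.1 t) = act f.1 (B t) := fun t => by rw [cj, hg]
  have b1 : B ![0, 1, 0, 0] = act f.1 (B ![1, 0, 0, 0]) := by rw [← cf, act_f]; rfl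
  have b2 : B ![0, 0, 1, 0] = act f.1 (B ![0, 1, 0, 0]) := by rw [← cf, act_f]; rfl
  have b3 : B ![0, 0, 0, 1] = act f.1 (B ![0, 0, 1, 0]) := by rw [← cf, act_f]; rfl
  have inv : b (B ![1, 0, 0, 0]) (B ![0, 1, 0, 0]) = b (B ![1, 0, 0, 0]) (B ![0, 0, 1, 0]) := by
    rw [← (σ ⟨0, sw⟩).g.2, ← cj, ← cj]
    congr 2 <;> decide
  obtain ⟨x, hx⟩ := su ![1, 0, 0, 0]
  have ex : x = x 0 • ![1, 0, 0, 0] + x 1 • ![0, 1, 0, 0] + x 2 • ![0, 0, 1, 0] +
      x 3 • ![0, 0, 0, 1] := by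
    funext i; fin_cases i <;> simp
  rw [ex] at hx
  simp only [map_add, map_zsmul] at hx
  rw [b3, b2, b1] at hx
  rw [b2, b1] at inv
  generalize B ![1, 0, 0, 0] = β at *
  have h4 : b β β * b x x = 16 := by
    have := congrArg (fun v => b v v) hx
    simp only [b_eq, act_f, Pi.add_apply, Pi.smul_apply, smul_eq_mul, Matrix.cons_val] at this inv ⊢
    linear_combination 4 * this - 4 * (x 0 * x 1 + x 1 * x 2 + x 2 * x 3 -
      (x 0 * x 2 + x 1 * x 3 + x 0 * x 3)) * inv
  have ev : ∀ v, b v v % 2 = 0 := fun v => by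
    have : (2 : ℤ) ∣ b v v := ⟨2 * (v 0 ^ 2 + v 1 ^ 2 + v 2 ^ 2 + v 3 ^ 2) - (v 0 * v 1 +
      v 0 * v 2 + v 0 * v 3 + v 1 * v 2 + v 1 * v 3 + v 2 * v 3), by rw [b_eq]; ring⟩
    omega
  obtain ⟨c, hc⟩ : ∃ c, β 0 + β 1 + β 2 + β 3 = 2 + 5 * c := by
    have t0 := congrFun ht 0; have t1 := congrFun ht 1
    have t2 := congrFun ht 2; have t3 := congrFun ht 3
    have s0 := congrFun c2 0; have s1 := congrFun c2 1
    have s2 := congrFun c2 2; have s3 := congrFun c2 3
    simp at t0 t1 t2 t3 s0 s1 s2 s3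
    exact ⟨(β 0 + β 1 + β 2 + β 3 - 2) / 5, by omega⟩
  have m5 : b β β % 5 = 1 := by
    have : (5 : ℤ) ∣ b β β - 1 := ⟨β 0 ^ 2 + β 1 ^ 2 + β 2 ^ 2 + β 3 ^ 2 - 1 - 4 * c - 5 * c ^ 2,
      by rw [b_eq, hc]; ring⟩
    omega
  have p1 := (sq_nonneg _).trans (sq_le β 0)
  have p2 := (sq_nonneg _).trans (sq_le x 0)
  have q1 := ev β
  have q2 := ev x
  generalize b β β = a at *
  generalize b x x = z at *
  have : a ≤ 16 := Int.le_of_dvd (by norm_num) ⟨z, h4.symm⟩
  have : a = 6 ∨ a = 16 := by omega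
  rcases this with rfl | rfl <;> omega

/-- An irreducible split crystallographic group `ℤ ^ n ⋊ P` that is not homogeneous. -/
theorem result : ∃ (n : ℕ) (P : Subgroup (GL (Fin n) ℤ)), 1 ≤ n ∧ Finite P ∧ Irred P ∧
    ¬ Homogeneous (Cryst ℤ P) := by
  refine ⟨4, P0, by norm_num, inferInstance, irr, fun h => ?_⟩
  obtain ⟨σ, hσ⟩ := h 1 le_rfl (fun _ => ⟨![1, 0, 0, 0], f⟩) (fun _ => ⟨![2, 0, 0, 0], f⟩) (by
    intro φ
    obtain ⟨θ, y, hθ⟩ := theta
    obtain ⟨ev, h1, h2, h3⟩ := evx P0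
    let w : Cryst Z P0 := tr ![-4 * y, -3 * y, -2 * y, -y]
    let α : Cryst Z P0 ≃* Cryst Z P0 := (cmap θ).trans (MulAut.conj w)
    have l1 := los U ev h1 h2 φ (fun _ _ => ⟨![2, 0, 0, 0], f⟩) default
    have l2 := los U (α.toMonoidHom.comp ev) (α.surjective.comp h1)
      (fun x y => α.injective.eq_iff.trans (h2 x y)) φ (fun _ _ => ⟨![1, 0, 0, 0], f⟩) default
    have e : α (ev fun _ => ⟨![1, 0, 0, 0], f⟩) = ev fun _ => ⟨![2, 0, 0, 0], f⟩ := by
      rw [h3, h3]
      change w * _ * w⁻¹ = _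
      rw [mul_inv_eq_iff_eq_mul]
      refine Cryst.ext ?_ (by simp [mul_g, w, tr, cmap])
      change w.t + act 1 _ = _ + act f.1 w.t
      rw [act_one, act_f]
      funext i
      fin_cases i <;> simp [w, tr, cmap, hθ] <;> ring
    simp only [MonoidHom.comp_apply, MulEquiv.coe_toMonoidHom, e] at l2
    rw [Subsingleton.elim (fun i : Fin 0 => α _) (fun i => ev ((default : Fin 0 → _) i)), l1] at l2
    simp only [Subsingleton.elim (fun i : Fin 0 => (default : Fin 0 → ℕ → Cryst ℤ P0) i _) default,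
      eventually_const] at l2
    exact l2.symm)
  exact noaut σ (hσ 0)

end Pool.Agent.Results.MP_881be3_lc.NotHomogeneous
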